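import Mathlib

namespace Pool.Agent.H.MP_cb4cd2_al

open Finset

variable {α K : Type} [DecidableEq α] [Field K]

lemma dual {T S : Type} [Fintype T] [Fintype S] (M : T → S → K)
    (h : ∀ g : T → K, (∀ s, ∑ t, g t * M t s = 0) → ∀ t, g t = 0) (y : T → K) :
    ∃ c : S → K, ∀ t, ∑ s, M t s * c s = y t := by
  classical
  by_contra hh
  have : y ∉ LinearMap.range (Matrix.mulVecLin (Matrix.of M)) := by
    rintro ⟨c, hc⟩
    exact hh ⟨c, fun t => congrFun hc t⟩
  obtain ⟨f, hf, hp⟩ := Submodule.exists_le_ker_of_notMem this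
  apply hf
  have := h (fun t => f fun j => if t = j then 1 else 0) fun s => by
    have h1 : f _ = 0 := hp ⟨Pi.single s 1, rfl⟩
    rw [LinearMap.pi_apply_eq_sum_univ] at h1
    simpa [mul_comm] using h1
  rw [LinearMap.pi_apply_eq_sum_univ]
  simp [this]

omit [Field K] in
lemma const (c : Finset α → K) (F : Finset α) (i : ℕ)
    (h : ∀ ρ ⊆ F, ρ.card + 1 = i → ∀ x ∈ F, ∀ y ∈ F, x ∉ ρ → y ∉ ρ →
      c (insert x ρ) = c (insert y ρ)) (d : ℕ) :
    ∀ σ ⊆ F, ∀ τ ⊆ F, σ.card = i → τ.card = i → (σ \ τ).card = d → c σ = c τ := by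
  induction d with
  | zero =>
    intro σ _ τ _ h1 h2 h3
    rw [eq_of_subset_of_card_le (sdiff_eq_empty_iff_subset.1 (card_eq_zero.1 h3)) (by omega)]
  | succ d ih =>
    intro σ hσ τ hτ h1 h2 h3
    obtain ⟨x, hx⟩ : (σ \ τ).Nonempty := card_pos.1 (by omega)
    obtain ⟨y, hy⟩ : (τ \ σ).Nonempty := card_pos.1 (by
      rw [← card_sdiff_comm (h1.trans h2.symm)]; omega)
    rw [mem_sdiff] at hx hy
    have hyn : y ∉ σ.erase x := fun h => hy.2 (mem_of_mem_erase h)
    have hc : (σ.erase x).card + 1 = i := by rw [card_erase_add_one hx.1, h1]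
    have e := h (σ.erase x) ((erase_subset _ _).trans hσ) hc x (hσ hx.1) y (hτ hy.1)
      (notMem_erase _ _) hyn
    rw [insert_erase hx.1] at e
    rw [e]
    refine ih _ (insert_subset (hτ hy.1) ((erase_subset _ _).trans hσ)) τ hτ
      (by rw [card_insert_of_notMem hyn, hc]) h2 ?_
    rw [insert_sdiff_of_mem _ hy.1, erase_sdiff_comm, card_erase_of_mem (mem_sdiff.2 hx), h3]
    rfl

lemma inj [CharZero K] (i : ℕ) : ∀ (k : ℕ) (F : Finset α) (c : Finset α → K), i ≤ k →
    i + k ≤ F.card → (∀ τ ⊆ F, τ.card = k → ∑ σ ∈ powersetCard i τ, c σ = 0) →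
    ∀ σ ⊆ F, σ.card = i → c σ = 0 := by
  induction i with
  | zero =>
    intro k F c _ hk h σ _ hσ
    obtain ⟨τ, h1, h2⟩ := exists_subset_card_eq (show k ≤ F.card by omega)
    simpa [card_eq_zero.1 hσ] using h τ h1 h2
  | succ i ih =>
    intro k F c hik hk h σ hσ hc
    obtain ⟨k, rfl⟩ : ∃ m, k = m + 1 := ⟨k - 1, by omega⟩
    have key := const c F (i + 1) (fun ρ hρ hr x hx y hy hxρ hyρ => by
      by_cases hxy : x = y
      · rw [hxy]
      have hyx : y ∈ F.erase x := mem_erase.2 ⟨Ne.symm hxy, hy⟩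
      refine sub_eq_zero.1 (ih k ((F.erase x).erase y) (fun ρ => c (insert x ρ) - c (insert y ρ))
        (by omega) (by
          have := card_erase_add_one hx
          have := card_erase_add_one hyx
          omega) (fun τ hτ ht => ?_) ρ ?_ (by omega))
      · have hx' : x ∉ τ := fun h => notMem_erase x F (mem_of_mem_erase (hτ h))
        have hy' : y ∉ τ := fun h => notMem_erase y _ (hτ h)
        have hτF : τ ⊆ F := hτ.trans ((erase_subset _ _).trans (erase_subset _ _))
        have aux : ∀ z ∈ F, z ∉ τ → ∑ σ ∈ powersetCard (i + 1) τ, c σ +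
            ∑ σ ∈ powersetCard i τ, c (insert z σ) = 0 := fun z hz hz' => by
          have := h _ (insert_subset hz hτF) (by rw [card_insert_of_notMem hz', ht])
          rwa [powersetCard_succ_insert hz', sum_union, sum_image] at this
          · intro a ha b hb e
            have ha' : z ∉ a := fun h => hz' ((mem_powersetCard.1 ha).1 h)
            have hb' : z ∉ b := fun h => hz' ((mem_powersetCard.1 hb).1 h)
            rw [← erase_insert ha', ← erase_insert hb', e]
          · rw [disjoint_left]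
            intro a ha hb
            obtain ⟨b, -, rfl⟩ := mem_image.1 hb
            exact hz' ((mem_powersetCard.1 ha).1 (mem_insert_self _ _))
        rw [sum_sub_distrib]
        linear_combination aux x hx hx' - aux y hy hy'
      · intro z hz
        exact mem_erase.2 ⟨fun e => hyρ (e ▸ hz), mem_erase.2 ⟨fun e => hxρ (e ▸ hz), hρ hz⟩⟩)
    obtain ⟨τ, h1, h2⟩ := exists_subset_card_eq (show k + 1 ≤ F.card by omega)
    have := h τ h1 h2
    rw [sum_congr rfl fun ρ hρ => key _ ρ ((mem_powersetCard.1 hρ).1.trans h1) σ hσ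
      (mem_powersetCard.1 hρ).2 hc rfl, sum_const, card_powersetCard, h2, nsmul_eq_mul] at this
    exact (mul_eq_zero.1 this).resolve_left (Nat.cast_ne_zero.2 (Nat.choose_pos hik).ne')

lemma inj' [CharZero K] {i k : ℕ} (F : Finset α) (g : Finset α → K) (hik : i ≤ k)
    (hF : F.card ≤ i + k)
    (h : ∀ σ ⊆ F, σ.card = i → ∑ τ ∈ powersetCard k F with σ ⊆ τ, g τ = 0) :
    ∀ τ ⊆ F, τ.card = k → g τ = 0 := by
  intro τ hτ hk
  have hkF := card_le_card hτ
  have := inj (F.card - k) (F.card - i) F (fun ρ => g (F \ ρ)) (by omega) (by omega)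
    (fun ρ hρ hr => ?_) (F \ τ) sdiff_subset (by rw [card_sdiff_of_subset hτ, hk])
  · simpa only [Finset.sdiff_sdiff_eq_self hτ] using this
  rw [← h (F \ ρ) sdiff_subset (by rw [card_sdiff_of_subset hρ]; omega)]
  refine sum_nbij' (F \ ·) (F \ ·) ?_ ?_ ?_ ?_ fun _ _ => rfl
  · intro a ha
    rw [mem_powersetCard] at ha
    simp only [mem_filter, mem_powersetCard]
    exact ⟨⟨sdiff_subset, by rw [card_sdiff_of_subset (ha.1.trans hρ)]; omega⟩,
      sdiff_subset_sdiff le_rfl ha.1⟩
  · intro a ha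
    simp only [mem_filter, mem_powersetCard] at ha ⊢
    refine ⟨fun z hz => ?_, by rw [card_sdiff_of_subset ha.1.1]; omega⟩
    by_contra hh
    exact (mem_sdiff.1 hz).2 (ha.2 (mem_sdiff.2 ⟨(mem_sdiff.1 hz).1, hh⟩))
  · intro a ha
    exact Finset.sdiff_sdiff_eq_self ((mem_powersetCard.1 ha).1.trans hρ)
  · intro a ha
    exact Finset.sdiff_sdiff_eq_self (mem_powersetCard.1 (mem_filter.1 ha).1).1

lemma step (c : Finset α → K) (i j : ℕ) (τ : Finset α) (h : τ.card = i + j + 1) :
    ∑ v ∈ τ, ∑ σ ∈ powersetCard i (τ.erase v), c σ = (j + 1 : ℕ) * ∑ σ ∈ powersetCard i τ, c σ := by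
  rw [sum_comm' (t' := powersetCard i τ) (s' := fun σ => τ \ σ), mul_sum]
  · refine sum_congr rfl fun σ hσ => ?_
    rw [mem_powersetCard] at hσ
    rw [sum_const, card_sdiff_of_subset hσ.1, nsmul_eq_mul]
    congr 2; omega
  · intro v σ
    simp only [mem_powersetCard, subset_erase, mem_sdiff]
    tauto

end Pool.Agent.H.MP_cb4cd2_al
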